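import Mathlib
import Pool.Agent.Seat74.TN.Thin
import Pool.Agent.Seat74.TN.Bases
import Pool.Agent.Seat74.TN.Huge

/-!
# The n-term abc conjecture for tuples built from few bases outside a thin set

For every `ε > 0` there is ONE set `E` of positive integers, with at most `X ^ ε` elements up to `X`
for all `X ≥ 1`, such that for all `n`, `N`, `B` and `A` there are `R`, `M` and `δ > 0` with the
following properties.

(1) Let `a` be an admissible `n`-tuple of products of powers of `N` pairwise coprime positive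
integers `x j ≤ X`, with `|a i| ≤ exp (X ^ δ)`. Every base `x j ≥ X ^ (1 / A)`, `x j ≥ 2`, which is
not in `E` occurs in all the `a i` with exponents at most `R`.

(2) Let `a` be an admissible `n`-tuple with at most `N` prime factors, all of them between
`P ^ (1 / A)` and `P` and none of them in `E`, and let `|a i| ≤ exp (P ^ δ)`. Then
`max |a i| ≤ rad (a 1 ⋯ a n) ^ R`.

(3) Let `a 1 + ⋯ + a n + s₀ z ^ r = 0` be an equation between coprime integers of absolute value at
most `exp (X ^ δ)` without vanishing proper partial sum, where `z` is an arbitrary integer, `r ≥ R`,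
and `a i` is the product of an integer `s i` and of powers with arbitrary exponents of `N` arbitrary
positive integers `x j ≤ X`, and `s i`, `s₀` are at most `X ^ B` in absolute value. Every base
`x j ≥ X ^ (1 / A)`, `x j ≥ 2`, which is not in `E` occurs with exponents at most `R`. If all the
bases `x j ≥ 2` are of this kind, then all the members of the equation, also `s₀ z ^ r`, are at most
`X ^ M`; if moreover `X ≤ rad ^ A` for the radical of the product of all members (for instance if one
of the `x j` is a prime), they are at most `rad ^ M`. Here the number of the prime factors is not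
bounded, and `z` may be of exponential size in `X`.

So the n-term abc inequality, with an exponent depending on `n`, `N`, `B`, `A` and `ε` only, holds
for ALL such tuples outside a thin set of primes or bases, which does not depend on `n`, `N`, `B`,
`A`.

The proof: by the starting theorems `LargeParts` and `HugePower` the parts of these tuples with
large exponents take at most `X ^ ε'` values; a base occurring with a large exponent divides one of
them, and there are at most `X ^ ε'` integers up to `X` composed of the primes dividing a given one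
of these values, as its radical is at most `X ^ N`. Finally one takes the union over all `n`, `N`,
`B`, `A` from suitable places on.
-/

set_option autoImplicit false

namespace Pool.Agent.Results.MP_a95293_nt.BasesOutsideAThinSet

open Pool.Agent.Seat74.TN.Bases (Admissible primesOf rad)

/-- **The n-term abc inequality over all primes and bases outside a thin set.** For every `ε > 0`
there is a set `E` of positive integers with at most `X ^ ε` elements up to `X`, for all `X ≥ 1`, such
that for all `n ≥ 1`, `N`, `B`, `A` there are `R`, `M` and `δ > 0` with the following properties.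

(1) Let the members of an admissible tuple `a` with `|a i| ≤ exp (X ^ δ)` be, up to signs, products
of powers of `N` pairwise coprime positive integers `x j ≤ X`. Every `x j ≥ 2` which is not in `E`
and satisfies `X ≤ x j ^ A` has exponents at most `R` in all the members.

(2) Let all the prime factors `p` of an admissible tuple `a` with at most `N` prime factors satisfy
`p ≤ P ≤ p ^ A` and `p ∉ E`, and let `|a i| ≤ exp (P ^ δ)`. Then `|a i| ≤ rad a ^ R`.

(3) Let `a` be an admissible `(n + 1)`-tuple with `|a i| ≤ exp (X ^ δ)`, `X ≥ 2`, the first `n`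
members of which are `s i * ∏ j, x j ^ e i j` with `|s i| ≤ X ^ B` and `N` positive integers
`x j ≤ X`, and the last one `s₀ * z ^ r` with `|s₀| ≤ X ^ B`, `r ≥ R`. Then `e i j ≤ R` for all `i`
if `2 ≤ x j`, `x j ∉ E` and `X ≤ x j ^ A`. If this holds for all `j` with `2 ≤ x j`, then
`|a i| ≤ X ^ M` for all `i`; if moreover `X ≤ rad a ^ A`, then `|a i| ≤ rad a ^ M` for all `i`. -/
theorem result (ε : ℝ) (hε : 0 < ε) : ∃ E : Set ℕ, (∀ x ∈ E, 1 ≤ x) ∧
    (∀ X : ℝ, 1 ≤ X → {x ∈ E | (x : ℝ) ≤ X}.Finite ∧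
      (({x ∈ E | (x : ℝ) ≤ X}.ncard : ℕ) : ℝ) ≤ X ^ ε) ∧
    (∀ n N A : ℕ, ∃ (R : ℕ) (δ : ℝ), 0 < δ ∧
      (∀ (X : ℝ) (a : Fin n → ℤ) (x : Fin N → ℕ) (e : Fin n → Fin N → ℕ), Admissible a →
        (∀ i, ((|a i| : ℤ) : ℝ) ≤ Real.exp (X ^ δ)) → (∀ j, 1 ≤ x j ∧ (x j : ℝ) ≤ X) →
        (∀ j k, j ≠ k → Nat.Coprime (x j) (x k)) → (∀ i, (a i).natAbs = ∏ j, x j ^ e i j) →
        ∀ j, 2 ≤ x j → x j ∉ E → X ≤ (x j : ℝ) ^ A → ∀ i, e i j ≤ R) ∧
      (∀ (P : ℝ) (a : Fin n → ℤ), Admissible a → (primesOf a).card ≤ N →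
        (∀ p ∈ primesOf a, (p : ℝ) ≤ P ∧ P ≤ (p : ℝ) ^ A ∧ p ∉ E) →
        (∀ i, ((|a i| : ℤ) : ℝ) ≤ Real.exp (P ^ δ)) → ∀ i, |a i| ≤ (rad a : ℤ) ^ R)) ∧
    ∀ n N B A : ℕ, 1 ≤ n → ∃ (R M : ℕ) (δ : ℝ), 0 < δ ∧
      ∀ (X : ℝ) (a : Fin (n + 1) → ℤ) (x : Fin N → ℕ) (e : Fin n → Fin N → ℕ) (s : Fin n → ℤ)
        (s₀ z : ℤ) (r : ℕ), Admissible a → 2 ≤ X →
        (∀ i, ((|a i| : ℤ) : ℝ) ≤ Real.exp (X ^ δ)) → (∀ j, 1 ≤ x j ∧ (x j : ℝ) ≤ X) →
        (∀ i, ((|s i| : ℤ) : ℝ) ≤ X ^ B) → ((|s₀| : ℤ) : ℝ) ≤ X ^ B → R ≤ r →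
        (∀ i, a (Fin.castSucc i) = s i * ∏ j, (x j : ℤ) ^ e i j) →
        a (Fin.last n) = s₀ * z ^ r →
        (∀ j, 2 ≤ x j → x j ∉ E → X ≤ (x j : ℝ) ^ A → ∀ i, e i j ≤ R) ∧
        ((∀ j, 2 ≤ x j → x j ∉ E ∧ X ≤ (x j : ℝ) ^ A) →
          (∀ i, ((|a i| : ℤ) : ℝ) ≤ X ^ M) ∧
          (X ≤ (rad a : ℝ) ^ A → ∀ i, |a i| ≤ (rad a : ℤ) ^ M)) := by
  obtain ⟨B₁, h1, h2, h3⟩ := Seat74.TN.Bases.core (ε / 2) (by positivity)
  obtain ⟨B₂, g1, g2, g3⟩ := Seat74.TN.Huge.core (ε / 2) (by positivity)
  obtain ⟨T, hT⟩ := Seat74.TN.thin_union ε hε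
    (fun j => if j % 2 = 0 then B₁ (j / 2) else B₂ (j / 2)) (fun j => by
      by_cases hj : j % 2 = 0
      · simp only [hj, if_true]
        exact h2 _
      · simp only [hj, if_false]
        exact g2 _)
  refine ⟨{x | ∃ j, x ∈ (if j % 2 = 0 then B₁ (j / 2) else B₂ (j / 2)) ∧ T j ≤ x}, ?_,
    fun X hX => hT X hX, ?_, ?_⟩
  · rintro x ⟨j, hj, -⟩
    by_cases hj0 : j % 2 = 0
    · rw [if_pos hj0] at hj
      exact le_trans one_le_two (h1 _ x hj)
    · rw [if_neg hj0] at hj
      exact le_trans one_le_two (g1 _ x hj)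
  · refine h3 (fun j => T (2 * j)) _ fun j x hx hTx => ⟨2 * j, ?_, hTx⟩
    rw [if_pos (by omega), show 2 * j / 2 = j by omega]
    exact hx
  · refine g3 (fun j => T (2 * j + 1)) _ fun j x hx hTx => ⟨2 * j + 1, ?_, hTx⟩
    rw [if_neg (by omega), show (2 * j + 1) / 2 = j by omega]
    exact hx

end Pool.Agent.Results.MP_a95293_nt.BasesOutsideAThinSet
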