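import Pool.Agent.H65NT.Dim
import Pool.Agent.H65NT.BC
import Pool.Agent.H65NT.Cnt
import Pool.Agent.H65NT.Lsum
import Pool.Agent.H65NT.Nec
import Pool.Agent.H65NT.Tube
import Pool.Agent.H65NT.Hbc
import Pool.Agent.H65NT.Up

/-!
# The n-term abc conjecture: the Hausdorff dimension of the directions with given radicals

Let `n = k + 2 ≥ 4` and `t > 1`. We consider the tuples `x` of `n` pairwise coprime integers with sum zero,
`x_0 > 0` and without vanishing proper subsum near the direction `ξ` in `ℝ ^ k`: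
`|ξ_i - x_{i+1} / x_0| ≤ x_0 ^ (-t)`. If all `z_j ≤ 1` and `∑ z_j ≥ n - 1`, then the set of the `ξ` for which `z`
is a limit point of the vectors of the exponents `log rad (x_j) / log x_0` of these tuples has Hausdorff dimension
exactly `min k ((∑ z_j - 1) / t)`; for `1 / n < M < 1 / (n - 1)` the set of the `ξ` for which infinitely many of these
tuples violate `max |x_j| ≤ rad (x_0 ⋯ x_{n-1}) ^ M` has dimension exactly `min k ((1 / M - 1) / t)`.
-/

set_option autoImplicit false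

namespace Pool.Agent.Results.MP_a95293_nt.DimensionOfDirections

open Finset Filter MeasureTheory

/-- The radical of the integer `z`: the product of the primes dividing it. -/
def rad (z : ℤ) : ℕ := ∏ p ∈ z.natAbs.primeFactors, p

/-- An admissible tuple with pairwise coprime coordinates: sum zero, no vanishing proper subsum. -/
def Adm {n : ℕ} (x : Fin n → ℤ) : Prop :=
  ∑ i, x i = 0 ∧ (∀ i j, i ≠ j → IsCoprime (x i) (x j)) ∧
    ∀ I : Finset (Fin n), I.Nonempty → I ≠ univ → ∑ i ∈ I, x i ≠ 0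

/-- The height `max |x_j|`. -/
noncomputable def height {n : ℕ} (x : Fin n → ℤ) : ℝ := ⨆ i, |(x i : ℝ)|

/-- `x_0 > 0` and `(x_1 / x_0, …, x_k / x_0)` is near `ξ`, with exponent `t`. -/
def Near {k : ℕ} (ξ : Fin k → ℝ) (t : ℝ) (x : Fin (k + 2) → ℤ) : Prop :=
  0 < x 0 ∧ ∀ i : Fin k, |ξ i - (x i.succ.castSucc : ℝ) / (x 0 : ℝ)| ≤ (x 0 : ℝ) ^ (-t)

/-- The exponent `log rad (x_j) / log x_0`. -/
noncomputable def expo {k : ℕ} (x : Fin (k + 2) → ℤ) (j : Fin (k + 2)) : ℝ :=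
  Real.log (rad (x j)) / Real.log (x 0)

/-- `z` is a limit point of the vectors of exponents of the admissible tuples near `ξ`. -/
def LimitPoint {k : ℕ} (ξ : Fin k → ℝ) (t : ℝ) (z : Fin (k + 2) → ℝ) : Prop :=
  ∀ ε : ℝ, 0 < ε → ∀ B : ℝ, ∃ x : Fin (k + 2) → ℤ, Adm x ∧ Near ξ t x ∧ B ≤ x 0 ∧
    ∀ i, |expo x i - z i| ≤ ε

/-- **The dimension of the directions with given radicals.** Let `k ≥ 2`, `n = k + 2`, `t > 1`.
(1) If all `z_j ≤ 1` and `∑ z_j ≥ k + 1`, the set of the `ξ` in `ℝ ^ k` for which `z` is a limit point of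
the exponents of the tuples near `ξ` has Hausdorff dimension `min k ((∑ z_j - 1) / t)`.
(2) If `1 / (k + 2) < M < 1 / (k + 1)`, the set of the `ξ` for which infinitely many admissible `x` near `ξ`
violate `max |x_j| ≤ rad (x_0 ⋯ x_{k+1}) ^ M` has Hausdorff dimension `min k ((1 / M - 1) / t)`. -/
theorem result (k : ℕ) (hk : 2 ≤ k) (t : ℝ) (ht : 1 < t) :
    (∀ z : Fin (k + 2) → ℝ, (∀ j, z j ≤ 1) → (k : ℝ) + 1 ≤ ∑ j, z j →
      dimH {ξ : Fin k → ℝ | LimitPoint ξ t z} = ENNReal.ofReal (min k ((∑ j, z j - 1) / t))) ∧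
    ∀ M : ℝ, 1 / (k + 2) < M → M < 1 / (k + 1) →
      dimH {ξ : Fin k → ℝ | {x : Fin (k + 2) → ℤ | Adm x ∧ Near ξ t x ∧
        ¬ height x ≤ (rad (∏ i, x i) : ℝ) ^ M}.Infinite} =
        ENNReal.ofReal (min k ((1 / M - 1) / t)) := by
  have hN := Pool.Agent.H65NT.nec Pool.Agent.H65NT.bc Pool.Agent.H65NT.cnt
  have hT := Pool.Agent.H65NT.tube Pool.Agent.H65NT.bc Pool.Agent.H65NT.lsum
  have hU := Pool.Agent.H65NT.up Pool.Agent.H65NT.hbc Pool.Agent.H65NT.cnt
  exact ⟨fun z hz1 hz2 => Pool.Agent.H65NT.dim_lim hN hT hU hk ht z hz1 hz2,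
    fun M hM1 hM2 => Pool.Agent.H65NT.dim_abc hN hT hU hk ht hM1 hM2⟩

end Pool.Agent.Results.MP_a95293_nt.DimensionOfDirections
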