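import Pool.Agent.H65NT.Exp
import Pool.Agent.H65NT.BC
import Pool.Agent.H65NT.Cnt
import Pool.Agent.H65NT.Lsum
import Pool.Agent.H65NT.Nec
import Pool.Agent.H65NT.Tube

/-!
# The n-term abc conjecture near almost every direction: the exact exponents of the radicals

Let `n = k + 2 ≥ 4`. For almost every `ξ` in `ℝ ^ k` and every `t > 1` we consider the tuples `x` of `n`
pairwise coprime integers with sum zero, `x_0 > 0` and without vanishing proper subsum which lie near the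
direction `(1, ξ, …)`: `|ξ_i - x_{i+1} / x_0| ≤ x_0 ^ (-t)`. All but finitely many of them satisfy
`rad (x_0 ⋯ x_{n-1}) > x_0 ^ (1 + k t - δ)`, and `max |x_j| ≤ rad ^ M` for each `M > 1 / (1 + k t)`. For
`t < 1 + 1 / k` this is sharp: `M` cannot be smaller than `1 / (1 + k t)`, and the limit points of the vectors of the
exponents `log rad (x_j) / log x_0` are exactly the `z` with all `z_j ≤ 1` and `∑ z_j ≥ 1 + k t`, all
attained at every scale.
-/

set_option autoImplicit false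

namespace Pool.Agent.Results.MP_a95293_nt.ExponentsNearDirections

open Finset Filter MeasureTheory

/-- The radical of the integer `z`: the product of the primes dividing it. -/
def rad (z : ℤ) : ℕ := ∏ p ∈ z.natAbs.primeFactors, p

/-- An admissible tuple with pairwise coprime coordinates: sum zero, no vanishing proper subsum. -/
def Adm {n : ℕ} (x : Fin n → ℤ) : Prop :=
  ∑ i, x i = 0 ∧ (∀ i j, i ≠ j → IsCoprime (x i) (x j)) ∧
    ∀ I : Finset (Fin n), I.Nonempty → I ≠ univ → ∑ i ∈ I, x i ≠ 0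

/-- The height `max |x_j|`. -/
noncomputable def height {n : ℕ} (x : Fin n → ℤ) : ℝ := ⨆ i, |(x i : ℝ)|

/-- `x_0 > 0` and `(x_1 / x_0, …, x_k / x_0)` is near `ξ`, with exponent `t`. -/
def Near {k : ℕ} (ξ : Fin k → ℝ) (t : ℝ) (x : Fin (k + 2) → ℤ) : Prop :=
  0 < x 0 ∧ ∀ i : Fin k, |ξ i - (x i.succ.castSucc : ℝ) / (x 0 : ℝ)| ≤ (x 0 : ℝ) ^ (-t)

/-- The exponent `log rad (x_j) / log x_0`. -/
noncomputable def expo {k : ℕ} (x : Fin (k + 2) → ℤ) (j : Fin (k + 2)) : ℝ :=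
  Real.log (rad (x j)) / Real.log (x 0)

/-- `z` is a limit point of the vectors of exponents of the admissible tuples near `ξ`. -/
def LimitPoint {k : ℕ} (ξ : Fin k → ℝ) (t : ℝ) (z : Fin (k + 2) → ℝ) : Prop :=
  ∀ ε : ℝ, 0 < ε → ∀ B : ℝ, ∃ x : Fin (k + 2) → ℤ, Adm x ∧ Near ξ t x ∧ B ≤ x 0 ∧
    ∀ i, |expo x i - z i| ≤ ε

/-- **The n-term abc conjecture near almost every direction.** Let `k ≥ 2`, `n = k + 2`. For almost
every `ξ` in `ℝ ^ k` and every `t > 1`: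
(1) for each `δ > 0` all but finitely many admissible `x` near `ξ` satisfy
`rad (x_0 ⋯ x_{n-1}) > x_0 ^ (1 + k t - δ)`;
(2) for each `M > 1 / (1 + k t)` all but finitely many of them satisfy `max |x_j| ≤ rad ^ M`;
and if `t < 1 + 1 / k` then
(3) for each `M < 1 / (1 + k t)` infinitely many of them violate `max |x_j| ≤ rad ^ M`;
(4) `z` is a limit point of the exponents if and only if all `z_j ≤ 1` and `∑ z_j ≥ 1 + k t`;
(5) each such `z` is attained at every scale: for `ε > 0` and all large `T` there is an admissible `x`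
near `ξ` with `T ^ (1 - ε) ≤ x_0 ≤ T` and exponents within `ε` of `z`. -/
theorem result (k : ℕ) (hk : 2 ≤ k) : ∀ᵐ ξ : Fin k → ℝ, ∀ t : ℝ, 1 < t →
    (∀ δ : ℝ, 0 < δ → {x : Fin (k + 2) → ℤ | Adm x ∧ Near ξ t x ∧
      (rad (∏ i, x i) : ℝ) ≤ (x 0 : ℝ) ^ (1 + k * t - δ)}.Finite) ∧
    (∀ M : ℝ, 1 / (1 + k * t) < M → {x : Fin (k + 2) → ℤ | Adm x ∧ Near ξ t x ∧
      ¬ height x ≤ (rad (∏ i, x i) : ℝ) ^ M}.Finite) ∧
    (t < 1 + 1 / k →
      (∀ M : ℝ, M < 1 / (1 + k * t) → {x : Fin (k + 2) → ℤ | Adm x ∧ Near ξ t x ∧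
        ¬ height x ≤ (rad (∏ i, x i) : ℝ) ^ M}.Infinite) ∧
      ∀ z : Fin (k + 2) → ℝ,
        (LimitPoint ξ t z ↔ (∀ j, z j ≤ 1) ∧ 1 + k * t ≤ ∑ j, z j) ∧
        ((∀ j, z j ≤ 1) → 1 + k * t ≤ ∑ j, z j → ∀ ε : ℝ, 0 < ε → ∃ T0 : ℝ, ∀ T : ℝ, T0 ≤ T →
          ∃ x : Fin (k + 2) → ℤ, Adm x ∧ Near ξ t x ∧ T ^ (1 - ε) ≤ x 0 ∧ (x 0 : ℝ) ≤ T ∧
            ∀ i, |expo x i - z i| ≤ ε)) := by
  have hN := Pool.Agent.H65NT.nec Pool.Agent.H65NT.bc Pool.Agent.H65NT.cnt
  have hT := Pool.Agent.H65NT.tube Pool.Agent.H65NT.bc Pool.Agent.H65NT.lsum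
  filter_upwards [Pool.Agent.H65NT.final hN hT k hk, hN k hk] with ξ h h1 t ht
  obtain ⟨hfin, hsharp⟩ := h t ht
  have hkt : (0 : ℝ) < 1 + k * t := by positivity
  refine ⟨fun δ hδ => ?_, fun M hM => ?_, fun ht1 => ⟨fun M hM => ?_, hsharp ht1⟩⟩
  · refine (hfin δ hδ).subset ?_
    rintro x ⟨hx, hn, hr⟩
    refine ⟨hx, hn, ?_⟩
    have hx' : Pool.Agent.H65NT.Adm x := hx
    have h2 := Pool.Agent.H65NT.R_prod (fun i => hx'.ne (by omega) i) hx'.2.1
    have h3 : (rad (∏ i, x i) : ℝ) = ∏ i, (Pool.Agent.H65NT.R (x i).natAbs : ℝ) := by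
      exact_mod_cast h2
    rw [← h3]
    exact hr
  · exact Pool.Agent.H65NT.abc_upper (by linarith) hkt
      (fun δ hδ => Pool.Agent.H65NT.lower h1 ht hδ) hM
  · have hk0 : (0 : ℝ) < k := by exact_mod_cast (by omega : 0 < k)
    have hk2 : (0 : ℝ) < k + 2 := by linarith
    have hkt1 : k * t < k + 1 := by
      have h2 : k * t < k * (1 + 1 / k) := mul_lt_mul_of_pos_left ht1 hk0
      have h3 : (k : ℝ) * (1 + 1 / k) = k + 1 := by field_simp
      linarith
    have hz : ∑ _j : Fin (k + 2), (1 + k * t) / (k + 2) = 1 + k * t := by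
      rw [Finset.sum_const, Finset.card_univ, Fintype.card_fin, nsmul_eq_mul]
      push_cast
      field_simp
    refine Pool.Agent.H65NT.abc_lower hkt (fun _ => (1 + k * t) / (k + 2)) hz ?_ hM
    refine ((hsharp ht1 _).1).2 ⟨fun j => ?_, hz.ge⟩
    rw [div_le_one hk2]
    linarith

end Pool.Agent.Results.MP_a95293_nt.ExponentsNearDirections
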