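import Pool.Agent.H34x.NT.Final

/-!
# Tuples of the n-term abc conjecture with prescribed radicals in small boxes

Let `n ≥ 3` and `α_1, …, α_n ∈ (0, 1]` with `s = α_1 + ⋯ + α_n > 1`. We look for integers
`x_1 + ⋯ + x_n = 0`, pairwise coprime and without vanishing proper subsums, with
`R (x_i) ≤ T ^ α_i`, near a given real vector `y` of sum zero and size at most `T`. For every
`τ < min (α_1, …, α_n, (s - 1) / (n - 1))` and all large `T` there is one in every box of side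
`T ^ (1 - τ)`; for `τ > min α_i` there is not. So the critical exponent is exactly `min α_i` if
this is at most `(s - 1) / (n - 1)`, for example if one of the `α_i` is `1`. As a consequence
every real direction is approximated by such integers with the exponent `τ`. The proof finds the
integers in lattices of prime powers whose reduced bases are controlled by the Subspace theorem.
-/

set_option autoImplicit false

namespace Pool.Agent.Results.MP_a95293_nt.PrescribedRadicalsInBoxes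

open Finset Filter

/-- the radical of an integer: the product of the primes dividing it -/
def R (z : ℤ) : ℕ := ∏ p ∈ z.natAbs.primeFactors, p

/-- integers with sum zero, pairwise coprime, without vanishing nonempty proper subsum -/
def Admissible {n : ℕ} (x : Fin n → ℤ) : Prop :=
  ∑ i, x i = 0 ∧ (∀ i j, i ≠ j → IsCoprime (x i) (x j)) ∧
    ∀ I : Finset (Fin n), I.Nonempty → I ≠ univ → ∑ i ∈ I, x i ≠ 0

/-- near every real `y` with sum zero and `|y i| ≤ T` there is an admissible `x` with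
`|x i - y i| ≤ T ^ (1 - τ)` and `R (x i) ≤ T ^ α i` -/
def InBoxes {n : ℕ} (α : Fin n → ℝ) (τ T : ℝ) : Prop :=
  ∀ y : Fin n → ℝ, ∑ i, y i = 0 → (∀ i, |y i| ≤ T) →
    ∃ x : Fin n → ℤ, Admissible x ∧ (∀ i, |(x i : ℝ) - y i| ≤ T ^ (1 - τ)) ∧
      ∀ i, (R (x i) : ℝ) ≤ T ^ (α i)

/-- **Tuples with prescribed radicals in small boxes.** Let `n ≥ 3`, `α i ∈ (0, 1]`,
`s = ∑ α i > 1`.
(1) Let `τ < α i` for all `i` and `τ < (s - 1) / (n - 1)`. For all large `T` every real `y` with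
`∑ y i = 0`, `|y i| ≤ T` has an admissible `x` with `|x i - y i| ≤ T ^ (1 - τ)` and
`R (x i) ≤ T ^ α i`; and for every real `ξ` with `∑ ξ i = 0`, `max |ξ i| = 1` there are admissible
`x` with arbitrarily large `H = max |x i|` with `|x i / H - ξ i| ≤ H ^ (-τ)` and
`R (x i) ≤ H ^ α i`.
(2) If `τ > α i` for some `i`, then for all large `T` some real `y` with `∑ y i = 0`,
`|y i| ≤ T` has no such `x`. -/
theorem result : ∀ n : ℕ, 3 ≤ n → ∀ α : Fin n → ℝ, (∀ i, 0 < α i) → (∀ i, α i ≤ 1) →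
    1 < ∑ i, α i →
    (∀ τ : ℝ, (∀ i, τ < α i) → τ < (∑ i, α i - 1) / (n - 1) →
      (∃ T0 : ℝ, ∀ T : ℝ, T0 ≤ T → InBoxes α τ T) ∧
      ∀ ξ : Fin n → ℝ, ∑ i, ξ i = 0 → (∀ i, |ξ i| ≤ 1) → (∃ i, |ξ i| = 1) → ∀ B : ℝ,
        ∃ (x : Fin n → ℤ) (H : ℕ), B ≤ H ∧ (∀ i, (x i).natAbs ≤ H) ∧ (∃ i, (x i).natAbs = H) ∧
          Admissible x ∧ (∀ i, |(x i : ℝ) / H - ξ i| ≤ (H : ℝ) ^ (-τ)) ∧
          ∀ i, (R (x i) : ℝ) ≤ (H : ℝ) ^ (α i)) ∧
    ∀ τ : ℝ, (∃ i, α i < τ) → ∃ T0 : ℝ, ∀ T : ℝ, T0 ≤ T → ¬ InBoxes α τ T := by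
  intro n hn α h0 h1 hs
  obtain ⟨m, rfl⟩ : ∃ m, n = m + 1 := ⟨n - 1, by omega⟩
  have hm : 2 ≤ m := by omega
  have hmR : (0 : ℝ) < m := by exact_mod_cast (by omega : 0 < m)
  refine ⟨fun τ hτα hτ => ?_, fun τ hτ => ?_⟩
  · have hτs : m * τ < ∑ i, α i - 1 := by
      push_cast at hτ
      rw [add_sub_cancel_right, lt_div_iff₀ hmR] at hτ
      linarith
    refine ⟨?_, fun ξ hξ hξ1 hξ2 B => ?_⟩
    · obtain ⟨T0, hT0⟩ := eventually_atTop.1 (Pool.Agent.H34x.NT.near hm α h0 h1 hs hτα hτs)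
      refine ⟨max T0 0, fun T hT y hy hyT => ?_⟩
      obtain ⟨x, hx1, hx2, hx3⟩ := hT0 T ((le_max_left _ _).trans hT) y hy hyT
      refine ⟨x, hx1, hx2, fun i => (hx3 i).trans ?_⟩
      have := Real.rpow_nonneg ((le_max_right _ _).trans hT) (α i)
      linarith
    · exact Pool.Agent.H34x.NT.directions hm α h0 h1 hs hτα hτs ξ hξ hξ1 hξ2 B
  · obtain ⟨i, hi⟩ := hτ
    obtain ⟨T0, hT0⟩ := eventually_atTop.1
      (Pool.Agent.H34x.NT.sharp (show 2 ≤ m + 1 by omega) i hi (h0 i))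
    refine ⟨T0, fun T hT hbox => ?_⟩
    obtain ⟨y, hy, hyT, hno⟩ := hT0 T hT
    obtain ⟨x, ⟨hx1, hx2, hx3⟩, hx4, hx5⟩ := hbox y hy hyT
    have hxi : x i ≠ 0 := by
      intro h
      refine hx3 {i} (by simp) ?_ (by simpa using h)
      intro h'
      have := congrArg Finset.card h'
      simp at this
      omega
    exact absurd (hx4 i) (not_le.2 (hno (x i) hxi (hx5 i)))

end Pool.Agent.Results.MP_a95293_nt.PrescribedRadicalsInBoxes
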